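import Pool.Agent.Run7.h149.Double

open Set Topology

noncomputable section

namespace Pool.Agent.Results.MP_cdfe0d_gt.DisjointSubcontinua

/-- `K` is a subcontinuum of the space `S`: a nonempty compact connected subset. -/
def IsSubcontinuum {S : Type*} [TopologicalSpace S] (K : Set S) : Prop :=
  IsCompact K ∧ IsConnected K

/-- `X` is an indecomposable continuum: a nonempty compact connected Hausdorff space which is not
the union of two proper subcontinua. -/
def IsIndecomposableContinuum (X : Type*) [TopologicalSpace X] : Prop :=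
  T2Space X ∧ CompactSpace X ∧ ConnectedSpace X ∧
    ¬ ∃ A B : Set X, IsSubcontinuum A ∧ IsSubcontinuum B ∧ A ≠ univ ∧ B ≠ univ ∧ A ∪ B = univ

/-- Jones's set function `T`: the complement of the set of all points that lie in the interior of
a subcontinuum of `S` disjoint from `A`. -/
def jonesT {S : Type*} [TopologicalSpace S] (A : Set S) : Set S :=
  {p | ∃ K : Set S, IsSubcontinuum K ∧ p ∈ interior K ∧ K ∩ A = ∅}ᶜ

/-- a criterion for indecomposability -/
theorem indecomposable_of_eq_univ {X : Type*} [TopologicalSpace X] [T2Space X] [CompactSpace X]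
    [ConnectedSpace X]
    (h : ∀ C : Set X, IsClosed C → IsPreconnected C → (interior C).Nonempty → C = univ) :
    IsIndecomposableContinuum X := by
  refine ⟨inferInstance, inferInstance, inferInstance, ?_⟩
  rintro ⟨A, B, hA, hB, hA', hB', hAB⟩
  apply hB'
  apply h B hB.1.isClosed hB.2.isPreconnected
  have hsub : Aᶜ ⊆ B := by
    intro x hx
    have : x ∈ A ∪ B := by rw [hAB]; trivial
    exact this.resolve_left hx
  have hopen : IsOpen Aᶜ := hA.1.isClosed.isOpen_compl
  obtain ⟨x, hx⟩ := nonempty_compl.mpr hA'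
  exact ⟨x, interior_maximal hsub hopen hx⟩

open Run7.h149.Double

variable {A B : Type} [MetricSpace A] [CompactSpace A] [MetricSpace B] [CompactSpace B]

/-- Preimages in the product of two towers of compact connected sets with full projections. -/
theorem isPreconnected_preimage {w : ℕ → A × (ℕ → Bool)} {v : ℕ → B × (ℕ → Bool)}
    {W : Set (A × B)} (hW : IsCompact W) (hWc : IsPreconnected W)
    (h1 : ∀ a, ∃ b, (a, b) ∈ W) (h2 : ∀ b, ∃ a, (a, b) ∈ W) :
    IsPreconnected {p : X w × X v | (p.1.1.1, p.2.1.1) ∈ W} := by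
  -- first lift the first factor
  set P : Set ((A × (ℕ → ℝ)) × B) := {p | p.1 ∈ X w ∧ (p.1.1, p.2) ∈ W} with hP
  have hPconn : IsPreconnected P := isPreconnected_lift hW hWc h1
  have hPcomp : IsCompact P := by
    refine ((isCompact_X (w := w)).prod (isCompact_univ (X := B))).of_isClosed_subset ?_ ?_
    · refine IsClosed.inter ((isCompact_X (w := w)).isClosed.preimage continuous_fst) ?_
      exact hW.isClosed.preimage (by fun_prop : Continuous fun p : (A × (ℕ → ℝ)) × B => (p.1.1, p.2))
    · rintro p ⟨hp, -⟩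
      exact ⟨hp, mem_univ _⟩
  -- swap
  set Q : Set (B × (A × (ℕ → ℝ))) := Prod.swap '' P with hQ
  have hQconn : IsPreconnected Q := hPconn.image _ continuous_swap.continuousOn
  have hQcomp : IsCompact Q := hPcomp.image continuous_swap
  have hQfull : ∀ b, ∃ x, (b, x) ∈ Q := by
    intro b
    obtain ⟨a, hab⟩ := h2 b
    exact ⟨Φ w (a, fun _ => true), ((Φ w (a, fun _ => true), b)), ⟨Φ_mem _, hab⟩, rfl⟩
  have hR := isPreconnected_lift (w := v) hQcomp hQconn hQfull
  -- the map from the product of subtypes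
  let f : X w × X v → (B × (ℕ → ℝ)) × (A × (ℕ → ℝ)) := fun p => (p.2.1, p.1.1)
  have hf : IsInducing f := by
    have h3 : IsInducing (Prod.map (Subtype.val : X v → B × (ℕ → ℝ))
        (Subtype.val : X w → A × (ℕ → ℝ))) :=
      IsInducing.subtypeVal.prodMap IsInducing.subtypeVal
    exact h3.comp (Homeomorph.prodComm (X w) (X v)).isInducing
  rw [← hf.isPreconnected_image]
  convert hR using 1
  ext p
  constructor
  · rintro ⟨q, hq, rfl⟩
    exact ⟨q.2.2, ((q.1.1, q.2.1.1)), ⟨q.1.2, hq⟩, rfl⟩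
  · rintro ⟨hp1, ⟨q, ⟨hq1, hq2⟩, hq3⟩⟩
    have e1 : p.2 = q.1 := (congrArg Prod.snd hq3).symm
    have e2 : p.1.1 = q.2 := (congrArg Prod.fst hq3).symm
    refine ⟨(⟨p.2, by rw [e1]; exact hq1⟩, ⟨p.1, hp1⟩), ?_, rfl⟩
    change (p.2.1, p.1.1) ∈ W
    rw [e1, e2]
    exact hq2

instance (w : ℕ → A × (ℕ → Bool)) : CompactSpace (X w) :=
  isCompact_iff_compactSpace.1 isCompact_X

/-- the tower over a continuum is connected -/
theorem connectedSpace_X [ConnectedSpace A] (w : ℕ → A × (ℕ → Bool)) : ConnectedSpace (X w) := by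
  have h1 := isPreconnected_preimage (w := w) (v := w) (W := (univ : Set (A × A)))
    isCompact_univ isPreconnected_univ (fun a => ⟨a, trivial⟩) (fun a => ⟨a, trivial⟩)
  have h2 : IsPreconnected (univ : Set (X w)) := by
    have h3 := h1.image Prod.fst continuous_fst.continuousOn
    convert h3 using 1
    ext x
    constructor
    · intro _
      exact ⟨(x, x), trivial, rfl⟩
    · intro _
      trivial
  obtain ⟨a⟩ := (inferInstance : Nonempty A)
  exact { isPreconnected_univ := h2, toNonempty := ⟨⟨_, Φ_mem (a, fun _ => true)⟩⟩ }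

/-- the tower over a continuum is indecomposable -/
theorem indecomposable_X [ConnectedSpace A] {w : ℕ → A × (ℕ → Bool)} (hw : Good w) :
    IsIndecomposableContinuum (X w) := by
  have := connectedSpace_X w
  refine indecomposable_of_eq_univ ?_
  intro C hC hpre hint
  have hemb : IsClosedEmbedding (Subtype.val : X w → A × (ℕ → ℝ)) :=
    (isCompact_X (w := w)).isClosed.isClosedEmbedding_subtypeVal
  obtain ⟨O, hO, hOC⟩ := isOpen_induced_iff.1 (isOpen_interior (s := C))
  have h1 : Subtype.val '' C = X w := by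
    refine eq_of_interior hw (hemb.isClosedMap C hC) ?_
      (hpre.image _ continuous_subtype_val.continuousOn) hO ?_ ?_
    · rintro _ ⟨x, -, rfl⟩
      exact x.2
    · obtain ⟨x, hx⟩ := hint
      rw [← hOC] at hx
      exact ⟨x.1, hx, x.2⟩
    · rintro x ⟨hx, hxX⟩
      refine ⟨⟨x, hxX⟩, ?_, rfl⟩
      apply interior_subset
      rw [← hOC]
      exact hx
  refine eq_univ_of_forall fun x => ?_
  have h2 : x.1 ∈ Subtype.val '' C := by
    rw [h1]
    exact x.2
  obtain ⟨y, hy, hyx⟩ := h2
  rwa [Subtype.ext hyx] at hy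

/-- The thick graph of the rotation by `c` of the circle. -/
def band (c : ℝ) : Set (UnitAddCircle × UnitAddCircle) :=
  (fun q : UnitAddCircle × ℝ => (q.1, q.1 + (q.2 : UnitAddCircle))) ''
    (univ ×ˢ Icc (c - 1 / 8) (c + 1 / 8))

theorem band_cont : Continuous
    (fun q : UnitAddCircle × ℝ => (q.1, q.1 + (q.2 : UnitAddCircle))) :=
  continuous_fst.prodMk (continuous_fst.add ((AddCircle.continuous_mk' (1 : ℝ)).comp continuous_snd))

theorem isCompact_band (c : ℝ) : IsCompact (band c) :=
  (isCompact_univ.prod isCompact_Icc).image band_cont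

theorem isConnected_circle : IsPreconnected (univ : Set UnitAddCircle) := by
  have h := isPreconnected_univ (α := ℝ).image (fun x : ℝ => (x : UnitAddCircle))
    (AddCircle.continuous_mk' (1 : ℝ)).continuousOn
  rwa [image_univ, QuotientAddGroup.mk_surjective.range_eq] at h

instance : ConnectedSpace UnitAddCircle :=
  { isPreconnected_univ := isConnected_circle, toNonempty := ⟨0⟩ }

theorem isPreconnected_band (c : ℝ) : IsPreconnected (band c) :=
  (isConnected_circle.prod isPreconnected_Icc).image _ band_cont.continuousOn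

theorem mem_band {c : ℝ} {a b : UnitAddCircle} :
    (a, b) ∈ band c ↔ ∃ t ∈ Icc (c - 1 / 8) (c + 1 / 8), b - a = (t : UnitAddCircle) := by
  constructor
  · rintro ⟨⟨x, t⟩, ⟨-, ht⟩, h⟩
    obtain ⟨h1, h2⟩ := Prod.ext_iff.1 h
    simp only at h1 h2
    refine ⟨t, ht, ?_⟩
    rw [← h1, ← h2]
    abel
  · rintro ⟨t, ht, h⟩
    refine ⟨(a, t), ⟨trivial, ht⟩, ?_⟩
    simp only
    rw [← h]
    congr 1
    abel

/-- the open kernel of the band -/
def openBand (c : ℝ) : Set (UnitAddCircle × UnitAddCircle) :=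
  {q | q.2 - q.1 ∈ (fun t : ℝ => (t : UnitAddCircle)) '' Ioo (c - 1 / 8) (c + 1 / 8)}

theorem isOpen_openBand (c : ℝ) : IsOpen (openBand c) := by
  have h : IsOpen ((fun t : ℝ => (t : UnitAddCircle)) '' Ioo (c - 1 / 8) (c + 1 / 8)) :=
    QuotientAddGroup.isOpenMap_coe _ isOpen_Ioo
  exact h.preimage (continuous_snd.sub continuous_fst)

theorem openBand_subset (c : ℝ) : openBand c ⊆ band c := by
  rintro ⟨a, b⟩ ⟨t, ht, h⟩
  exact mem_band.2 ⟨t, Ioo_subset_Icc_self ht, h.symm⟩

theorem band_disjoint : Disjoint (band 0) (band (1 / 2)) := by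
  rw [Set.disjoint_left]
  rintro ⟨a, b⟩ h1 h2
  obtain ⟨t, ht, h3⟩ := mem_band.1 h1
  obtain ⟨s, hs, h4⟩ := mem_band.1 h2
  have h5 : ((t : ℝ) : UnitAddCircle) = ((s : ℝ) : UnitAddCircle) := h3.symm.trans h4
  have h6 : (((s - t : ℝ)) : UnitAddCircle) = 0 := by
    rw [AddCircle.coe_sub, h5, sub_self]
  obtain ⟨n, hn⟩ := (AddCircle.coe_eq_zero_iff (1 : ℝ)).1 h6
  rw [zsmul_eq_mul, mul_one] at hn
  have h7 : (0 : ℝ) < (n : ℝ) := by
    rw [hn]
    have := ht.2
    have := hs.1
    linarith
  have h8 : (n : ℝ) < 1 := by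
    rw [hn]
    have := ht.1
    have := hs.2
    linarith
  have h9 : (0 : ℤ) < n := by exact_mod_cast h7
  have h10 : n < (1 : ℤ) := by exact_mod_cast h8
  omega

theorem band_full₁ (c : ℝ) (a : UnitAddCircle) : ∃ b, (a, b) ∈ band c :=
  ⟨a + (c : UnitAddCircle), mem_band.2 ⟨c, ⟨by linarith, by linarith⟩, by abel⟩⟩

theorem band_full₂ (c : ℝ) (b : UnitAddCircle) : ∃ a, (a, b) ∈ band c :=
  ⟨b - (c : UnitAddCircle), mem_band.2 ⟨c, ⟨by linarith, by linarith⟩, by abel⟩⟩

/-- There is a metrizable indecomposable continuum `X` and a subcontinuum `W` of `X × X` with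
nonempty interior such that `T(W)` is not all of `X × X`. -/
theorem result : ∃ (X : Type) (_ : TopologicalSpace X),
    IsIndecomposableContinuum X ∧ TopologicalSpace.MetrizableSpace X ∧
    ∃ W : Set (X × X), IsSubcontinuum W ∧ (interior W).Nonempty ∧ jonesT W ≠ univ := by
  obtain ⟨w, hw⟩ := exists_good (A := UnitAddCircle)
  have hproj : Continuous fun p : X w × X w => (p.1.1.1, p.2.1.1) := by fun_prop
  have hsub : ∀ c, IsSubcontinuum {p : X w × X w | (p.1.1.1, p.2.1.1) ∈ band c} := by
    intro c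
    refine ⟨((isCompact_band c).isClosed.preimage hproj).isCompact, ?_, ?_⟩
    · obtain ⟨b, hb⟩ := band_full₁ c 0
      exact ⟨(⟨_, Φ_mem (0, fun _ => true)⟩, ⟨_, Φ_mem (b, fun _ => true)⟩), hb⟩
    · exact isPreconnected_preimage (isCompact_band c) (isPreconnected_band c)
        (band_full₁ c) (band_full₂ c)
  have hint : ∀ c, (interior {p : X w × X w | (p.1.1.1, p.2.1.1) ∈ band c}).Nonempty := by
    intro c
    have h1 : {p : X w × X w | (p.1.1.1, p.2.1.1) ∈ openBand c} ⊆
        {p : X w × X w | (p.1.1.1, p.2.1.1) ∈ band c} := fun p hp => openBand_subset c hp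
    have h2 : IsOpen {p : X w × X w | (p.1.1.1, p.2.1.1) ∈ openBand c} :=
      (isOpen_openBand c).preimage hproj
    refine ⟨(⟨_, Φ_mem (0, fun _ => true)⟩, ⟨_, Φ_mem ((c : UnitAddCircle), fun _ => true)⟩),
      interior_maximal h1 h2 ?_⟩
    refine ⟨c, ⟨by linarith, by linarith⟩, ?_⟩
    change (c : UnitAddCircle) = (c : UnitAddCircle) - 0
    rw [sub_zero]
  refine ⟨X w, inferInstance, indecomposable_X hw, ?_, _, hsub 0, hint 0, ?_⟩
  · exact IsEmbedding.subtypeVal.metrizableSpace
  · intro h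
    obtain ⟨p, hp⟩ := hint (1 / 2)
    have h1 : p ∈ jonesT {p : X w × X w | (p.1.1.1, p.2.1.1) ∈ band 0} := by
      rw [h]
      trivial
    apply h1
    refine ⟨_, hsub (1 / 2), hp, ?_⟩
    rw [eq_empty_iff_forall_notMem]
    rintro q ⟨hq1, hq2⟩
    exact Set.disjoint_left.1 band_disjoint hq2 hq1

end Pool.Agent.Results.MP_cdfe0d_gt.DisjointSubcontinua
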